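import Pool.Agent.Y507.WC.Exact

/-!
# The extremal weakened convex functions

For `m ≥ 2` and `c > 0` let `F m c` be the largest function `f` on `[0,1]`, bounded above, with
`f(0), f(1) ≤ 0` and
`f((x₁+…+x_m)/m) ≤ (f(x₁)+…+f(x_m))/m + c (x_m - x₁)` for `0 ≤ x₁ ≤ … ≤ x_m ≤ 1`.

* `F 4 c` is given by the conjectured formula, and equals `F 2 c`, `2c` times the Takagi function.
* For every `m ≥ 5` the formula fails, with every constant in front of it.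
* For all `m ≥ 2`, `c g ≤ F m c ≤ c (g + 4/m)` for an explicit function `g`, and `F m c` is
  computed exactly at the points `i/m` and `(i/m)²` in certain ranges.
* Without boundedness the supremum is the same at rational points for `m = 4`, and infinite at all
  irrational points for every `m`.
-/

set_option autoImplicit false

namespace Pool.Agent.Results.MP_56f843_an.ExtremalWeakConvex

/-- `‖t‖`, the distance from `t` to the nearest integer -/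
noncomputable def near (t : ℝ) : ℝ := |t - round t|

/-- `f(0), f(1) ≤ 0`, and for all `0 ≤ x₁ ≤ … ≤ x_m ≤ 1` (`p` the first, `q` the last index)
`f((x₁+…+x_m)/m) ≤ (f(x₁)+…+f(x_m))/m + c (x_m - x₁)`. Only the values on `[0,1]` matter. -/
def Weak (m : ℕ) (c : ℝ) (f : ℝ → ℝ) : Prop :=
  f 0 ≤ 0 ∧ f 1 ≤ 0 ∧ ∀ x : Fin m → ℝ, Monotone x → (∀ i, 0 ≤ x i ∧ x i ≤ 1) →
    ∀ p q : Fin m, (∀ i, p ≤ i ∧ i ≤ q) →
      f ((∑ i, x i) / m) ≤ (∑ i, f (x i)) / m + c * (x q - x p)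

/-- `f` is bounded above on `[0,1]` -/
def BddUp (f : ℝ → ℝ) : Prop := ∃ S, ∀ t, 0 ≤ t → t ≤ 1 → f t ≤ S

/-- the values `f(x)` of the members bounded above -/
def values (m : ℕ) (c x : ℝ) : Set ℝ := {y | ∃ f, Weak m c f ∧ BddUp f ∧ f x = y}

/-- the extremal function -/
noncomputable def F (m : ℕ) (c x : ℝ) : ℝ := sSup (values m c x)

/-- `Σ_{k ≥ 1} m^(-k) min(‖m^(k-1) x‖, 1/m)` -/
noncomputable def S (m : ℕ) (x : ℝ) : ℝ :=
  ∑' k : ℕ, min (near ((m : ℝ) ^ k * x)) (1 / m) / (m : ℝ) ^ (k + 1)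

/-- the Takagi function `Σ_{k ≥ 0} 2^(-k) ‖2^k x‖` -/
noncomputable def takagi (x : ℝ) : ℝ := ∑' k : ℕ, near (2 ^ k * x) / 2 ^ k

/-- `inf_{k ≥ 0} (k+1) min(x, 1-x)^(k/(k+1))` -/
noncomputable def g (x : ℝ) : ℝ := ⨅ k : ℕ, ((k : ℝ) + 1) * (min x (1 - x)) ^ ((k : ℝ) / ((k : ℝ) + 1))

/-- the case `m = 4` -/
def Four (c : ℝ) : Prop :=
  (∀ x : ℝ, 0 ≤ x → x ≤ 1 →
    F 4 c x = 16 * c * S 4 x ∧ F 4 c x = 2 * c * takagi x ∧ F 4 c x = F 2 c x) ∧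
  ∀ x : ℚ, 0 ≤ (x : ℝ) → (x : ℝ) ≤ 1 →
    IsGreatest {y | ∃ f, Weak 4 c f ∧ f x = y} (16 * c * S 4 x)

/-- exact values for general `m` -/
def Exact (m : ℕ) (c : ℝ) : Prop :=
  (∀ i k : ℕ, i ≤ m → F m c (((i : ℝ) / m) ^ (k + 1)) ≤ c * ((k + 1) * ((i : ℝ) / m) ^ k)) ∧
  (∀ i : ℕ, 1 / 4 ≤ (i : ℝ) / m → (i : ℝ) / m ≤ 3 / 4 → F m c ((i : ℝ) / m) = c) ∧
  (∀ i : ℕ, 8 / 27 ≤ (i : ℝ) / m → (i : ℝ) / m ≤ 1 / 2 →
    F m c (((i : ℝ) / m) ^ 2) = 2 * c * ((i : ℝ) / m))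

theorem result :
    (∀ c : ℝ, 0 < c → Four c) ∧
    (∀ m : ℕ, 5 ≤ m → ∀ c : ℝ, 0 < c → ∀ A : ℝ, ∃ x, 0 ≤ x ∧ x ≤ 1 ∧ F m c x ≠ A * S m x) ∧
    (∀ m : ℕ, 2 ≤ m → ∀ c : ℝ, 0 < c →
      (∀ x : ℝ, 0 ≤ x → x ≤ 1 → IsGreatest (values m c x) (F m c x) ∧
        c * g x ≤ F m c x ∧ F m c x ≤ c * (g x + 4 / m)) ∧ Exact m c) ∧
    (∀ m : ℕ, 1 ≤ m → ∀ c : ℝ, 0 < c → ∀ x : ℝ, Irrational x → ∀ B : ℝ,
      ∃ f, Weak m c f ∧ B < f x) := by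
  have hT : ∀ x : ℝ, Pool.Agent.Y507.WC.T x = 2 * takagi x := by
    intro x
    unfold Pool.Agent.Y507.WC.T takagi
    rw [← tsum_mul_left]
    refine tsum_congr fun k => ?_
    rw [mul_div_assoc]
    rfl
  have hBT : Pool.Agent.Y507.WC.BA Pool.Agent.Y507.WC.T :=
    ⟨2, fun t _ _ => Pool.Agent.Y507.WC.T_le_two t⟩
  refine ⟨fun c hc => ⟨fun x h0 h1 => ?_, fun x h0 h1 => ?_⟩,
    fun m hm c hc A => Pool.Agent.Y507.WC.formula_fails hm hc A, fun m hm c hc => ⟨fun x h0 h1 =>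
      ⟨Pool.Agent.Y507.WC.FF_greatest hm hc h0 h1, ?_⟩, ?_, ?_, ?_⟩,
    fun m hm c hc x hx B => Pool.Agent.Y507.WC.exists_big (by omega) hc hx B⟩
  · have e4 : F 4 c x = c * Pool.Agent.Y507.WC.T x :=
      Pool.Agent.Y507.WC.FF_eq hc Pool.Agent.Y507.WC.T_weak_four hBT
        fun f hf hb => Pool.Agent.Y507.WC.mid_upper_bdd
          (Pool.Agent.Y507.WC.mid_of_weak_four hf) hb h0 h1
    have e2 : F 2 c x = c * Pool.Agent.Y507.WC.T x :=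
      Pool.Agent.Y507.WC.FF_eq hc Pool.Agent.Y507.WC.T_weak_two hBT
        fun f hf hb => Pool.Agent.Y507.WC.mid_upper_bdd
          (Pool.Agent.Y507.WC.mid_of_weak_two hf) hb h0 h1
    refine ⟨?_, ?_, by rw [e4, e2]⟩
    · have e : Pool.Agent.Y507.WC.T x = 16 * S 4 x := Pool.Agent.Y507.WC.T_eq_SS x
      rw [e4, e]
      ring
    · rw [e4, hT]
      ring
  · have e : Pool.Agent.Y507.WC.T x = 16 * S 4 x := Pool.Agent.Y507.WC.T_eq_SS x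
    refine ⟨⟨fun y => c * Pool.Agent.Y507.WC.T y,
      Pool.Agent.Y507.WC.weak_mul hc Pool.Agent.Y507.WC.T_weak_four, ?_⟩, ?_⟩
    · show c * Pool.Agent.Y507.WC.T x = 16 * c * S 4 x
      rw [e]
      ring
    · rintro y ⟨f, hf, rfl⟩
      have h := Pool.Agent.Y507.WC.mid_upper_rat
        (Pool.Agent.Y507.WC.mid_of_weak_four ((Pool.Agent.Y507.WC.weak_scale hc f).1 hf)) h0 h1
      rw [div_le_iff₀ hc, e] at h
      linarith
  · have hg : g x = Pool.Agent.Y507.WC.gg x := (Pool.Agent.Y507.WC.gg_eq h0 h1).symm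
    rw [hg]
    exact Pool.Agent.Y507.WC.FF_bounds hm hc h0 h1
  · exact fun i k hi => Pool.Agent.Y507.WC.FF_exact hm hc hi k
  · exact fun i h0 h1 => Pool.Agent.Y507.WC.FF_mid hm hc h0 h1
  · exact fun i h0 h1 => Pool.Agent.Y507.WC.FF_sq hm hc h0 h1

end Pool.Agent.Results.MP_56f843_an.ExtremalWeakConvex
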